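import Pool.Agent.X98.QG.Main

/-!
Invertible quaternion matrices form an open set; the two forms of stable boundedness (with or
without the condition that the leading coefficient of the nearby system is invertible) agree.
-/

set_option autoImplicit false

open Matrix Filter Topology

namespace Pool.Agent.X98.QG

open Pool.Agent.H636R3.Quat

attribute [local instance] Matrix.linftyOpNormedRing Matrix.linftyOpNormedAlgebra in
lemma isUnit_near {n : ℕ} {M : Matrix (Fin n) (Fin n) H} (hM : IsUnit M) :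
    ∃ δ : ℝ, 0 < δ ∧ ∀ M' : Matrix (Fin n) (Fin n) H, (∀ a b, ‖M' a b - M a b‖ < δ) → IsUnit M' := by
  haveI : CompleteSpace (Matrix (Fin n) (Fin n) H) := FiniteDimensional.complete ℝ _
  rcases Nat.eq_zero_or_pos n with hn | hn
  · subst hn
    refine ⟨1, one_pos, fun M' _ => ?_⟩
    rw [Subsingleton.elim M' M]; exact hM
  obtain ⟨U, rfl⟩ := hM
  set c : ℝ := ‖((U⁻¹ : (Matrix (Fin n) (Fin n) H)ˣ) : Matrix (Fin n) (Fin n) H)‖⁻¹ with hc
  have hcpos : 0 < c := by
    rw [hc, inv_pos, norm_pos_iff]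
    intro h0
    have h1 : ((U⁻¹ : (Matrix (Fin n) (Fin n) H)ˣ) : Matrix (Fin n) (Fin n) H) * (U : Matrix (Fin n) (Fin n) H) = 1 :=
      Units.inv_mul U
    rw [h0, zero_mul] at h1
    have h2 := congrFun (congrFun h1 ⟨0, hn⟩) ⟨0, hn⟩
    rw [Matrix.zero_apply, Matrix.one_apply_eq] at h2
    exact zero_ne_one h2
  have hn' : (0 : ℝ) < n := by exact_mod_cast hn
  refine ⟨c / (2 * n), by positivity, fun M' hM' => ?_⟩
  have hnorm : ‖M' - (U : Matrix (Fin n) (Fin n) H)‖ ≤ c / 2 := by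
    rw [Matrix.linfty_opNorm_def]
    have h1 : (Finset.univ.sup fun i => ∑ j, ‖(M' - (U : Matrix (Fin n) (Fin n) H)) i j‖₊)
        ≤ Real.toNNReal (c / 2) := by
      apply Finset.sup_le
      intro i _
      rw [← NNReal.coe_le_coe, NNReal.coe_sum, Real.coe_toNNReal _ (by positivity)]
      have h2 : ∀ j ∈ Finset.univ, ((‖(M' - (U : Matrix (Fin n) (Fin n) H)) i j‖₊ : NNReal) : ℝ)
          ≤ c / (2 * n) := by
        intro j _
        rw [coe_nnnorm, Matrix.sub_apply]
        exact (hM' i j).le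
      refine (Finset.sum_le_card_nsmul _ _ _ h2).trans (le_of_eq ?_)
      rw [Finset.card_univ, Fintype.card_fin, nsmul_eq_mul]
      field_simp
    have h3 := NNReal.coe_le_coe.2 h1
    rwa [Real.coe_toNNReal _ (by positivity)] at h3
  exact (U.ofNearby M' (lt_of_le_of_lt hnorm (by linarith))).isUnit

/-- The system is stably bounded: for some `ε > 0`, every system of the same form (same symmetries
and invertible leading coefficient) whose coefficients differ entrywise by less than `ε` is bounded. -/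
def IsStablyBoundedI {n : ℕ} (ℓ : ℕ) (A : ℕ → Matrix (Fin n) (Fin n) H) : Prop :=
  ∃ ε : ℝ, 0 < ε ∧ ∀ A' : ℕ → Matrix (Fin n) (Fin n) H, SymCoeffG ℓ A' → IsUnit (A' ℓ) →
    (∀ k, k ≤ ℓ → ∀ a b, ‖A' k a b - A k a b‖ < ε) → IsBoundedSystem ℓ A'

lemma stablyBounded_of_I {n ℓ : ℕ} {A : ℕ → Matrix (Fin n) (Fin n) H} (hinv : IsUnit (A ℓ))
    (h : IsStablyBoundedI ℓ A) : IsStablyBoundedG ℓ A := by
  obtain ⟨ε, hε, h⟩ := h
  obtain ⟨δ, hδ, h'⟩ := isUnit_near hinv
  refine ⟨min ε δ, lt_min hε hδ, fun A' hA' hcl => ?_⟩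
  exact h A' hA' (h' _ (fun a b => (hcl ℓ le_rfl a b).trans_le (min_le_right _ _)))
    (fun k hk a b => (hcl k hk a b).trans_le (min_le_left _ _))

end Pool.Agent.X98.QG
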