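import Pool.Agent.H636R3.QMain

/-!
Stable boundedness of quaternion systems `∑ A_k x^(k) = 0` with `A_k` hermitian for odd `k` and
skewhermitian for even `k`: the root subspaces of the companion matrix are definite with respect to
the hermitian matrix `G`.
-/

set_option autoImplicit false

open Matrix Filter Topology

namespace Pool.Agent.X98.QG

open Pool.Agent.H636R3.Quat

/-- The coefficients `A 0, …, A ℓ` have the required symmetries: `A k` is hermitian for odd `k` and
skewhermitian for even `k`. -/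
def SymCoeffG {n : ℕ} (ℓ : ℕ) (A : ℕ → Matrix (Fin n) (Fin n) H) : Prop :=
  ∀ k, k ≤ ℓ → (Odd k → (A k)ᴴ = A k) ∧ (Even k → (A k)ᴴ = -A k)

/-- The system is stably bounded: all systems with the same symmetries and nearby coefficients are
bounded. -/
def IsStablyBoundedG {n : ℕ} (ℓ : ℕ) (A : ℕ → Matrix (Fin n) (Fin n) H) : Prop :=
  ∃ ε : ℝ, 0 < ε ∧ ∀ A' : ℕ → Matrix (Fin n) (Fin n) H, SymCoeffG ℓ A' →
    (∀ k, k ≤ ℓ → ∀ a b, ‖A' k a b - A k a b‖ < ε) → IsBoundedSystem ℓ A'

lemma SymCoeffG.entry {n ℓ : ℕ} {A : ℕ → Matrix (Fin n) (Fin n) H} (hA : SymCoeffG ℓ A) {k : ℕ}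
    (hk : k ≤ ℓ) (a b : Fin n) : star (A k b a) = (-1 : ℝ) ^ (k + 1) • A k a b := by
  rcases Nat.even_or_odd k with h | h
  · have h1 := (hA k hk).2 h
    rw [h.add_one.neg_one_pow, neg_smul, one_smul, ← Matrix.conjTranspose_apply, h1, Matrix.neg_apply]
  · have h1 := (hA k hk).1 h
    rw [h.add_one.neg_one_pow, one_smul, ← Matrix.conjTranspose_apply, h1]

lemma gmat_herm {n ℓ : ℕ} {A : ℕ → Matrix (Fin n) (Fin n) H} (hA : SymCoeffG ℓ A) :
    (gmat ℓ A)ᴴ = gmat ℓ A := by
  ext1 p q
  rw [Matrix.conjTranspose_apply]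
  unfold gmat
  have hcomm : (q.1 : ℕ) + (p.1 : ℕ) = (p.1 : ℕ) + (q.1 : ℕ) := add_comm _ _
  rw [hcomm]
  split_ifs with h
  · rw [Matrix.smul_apply, Matrix.smul_apply, Quaternion.star_smul, hA.entry h, smul_smul,
      ← pow_add]
    congr 1
    have : (-1 : ℝ) ^ ((q.1 : ℕ) + ((p.1 : ℕ) + (q.1 : ℕ) + 1 + 1))
        = (-1) ^ (2 * ((q.1 : ℕ) + 1)) * ((-1) ^ (p.1 : ℕ)) := by
      rw [← pow_add]; congr 1; ring
    rw [this, pow_mul]
    norm_num
  · rw [star_zero]

section comp

variable {n L : ℕ} {A : ℕ → Matrix (Fin n) (Fin n) H}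

lemma gc_skew (hA : SymCoeffG (L + 1) A) (hinv : IsUnit (A (L + 1))) :
    (gmat (L + 1) A * companion (L + 1) A)ᴴ = -(gmat (L + 1) A * companion (L + 1) A) := by
  ext1 p q
  rw [Matrix.conjTranspose_apply, Matrix.neg_apply, gc_apply hinv, gc_apply hinv]
  obtain ⟨⟨i, hi⟩, a⟩ := p
  obtain ⟨⟨k, hk⟩, b⟩ := q
  simp only []
  rcases Nat.eq_zero_or_pos i with hi0 | hi0
  · subst hi0
    rcases Nat.eq_zero_or_pos k with hk0 | hk0
    · subst hk0
      have h1 := hA.entry (Nat.zero_le _) a b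
      simp only [lt_irrefl, dite_false, if_true, zero_add]
      have h2 : star (-(A 0 b a)) = -(-(A 0 a b)) := by
        rw [star_neg, h1, zero_add, pow_one, neg_smul, one_smul]
      exact h2
    · have hk1 : k ≠ 0 := by omega
      simp only [lt_irrefl, dite_false, if_true, hk1, if_false, hk0, dite_true, add_zero,
        star_zero]
      unfold gmat
      simp only [zero_add, pow_zero, one_smul]
      have h3 : k - 1 + 1 = k := by omega
      rw [h3, if_pos (by omega)]
      have h4 : (0 : H) = -(A k a b + -(A k a b)) := by rw [add_neg_cancel, neg_zero]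
      exact h4
  · have hi1 : i ≠ 0 := by omega
    rcases Nat.eq_zero_or_pos k with hk0 | hk0
    · subst hk0
      simp only [lt_irrefl, dite_false, if_true, hi1, if_false, hi0, dite_true, add_zero]
      unfold gmat
      simp only [zero_add, pow_zero, one_smul]
      have h3 : i - 1 + 1 = i := by omega
      rw [h3, if_pos (by omega)]
      have h4 : star (A i b a + -(A i b a)) = -0 := by rw [add_neg_cancel, star_zero, neg_zero]
      exact h4
    · have hk1 : k ≠ 0 := by omega
      simp only [hi0, hk0, dite_true, hi1, hk1, if_false, add_zero]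
      unfold gmat
      simp only []
      have e1 : k + (i - 1) + 1 = i + k := by omega
      have e2 : i + (k - 1) + 1 = i + k := by omega
      rw [e1, e2]
      split_ifs with h
      · rw [Matrix.smul_apply, Matrix.smul_apply, Quaternion.star_smul, hA.entry h, smul_smul,
          ← pow_add, ← neg_smul]
        congr 1
        rw [show k + (i + k + 1) = 2 * k + i + 1 by ring, pow_succ, pow_add, pow_mul]
        norm_num
      · rw [star_zero, neg_zero]

end comp

lemma skew_aux (c : ℝ) (va vb sa sb x : H) (hx : star x = -x) :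
    star (c • (vb * star sa - sb * star va) + c • (vb * x * star va))
      = -(c • (va * star sb - sa * star vb) + c • (va * x * star vb)) := by
  rw [star_add, Quaternion.star_smul, Quaternion.star_smul, star_sub, star_mul, star_mul, star_mul,
    star_mul, star_star, star_star, hx, neg_add, ← smul_neg, ← smul_neg, neg_sub,
    neg_mul, mul_neg, mul_assoc]

/-- a neutral eigenvector can be perturbed to an exponentially growing solution -/
theorem not_stable_of_neutralG {n ℓ : ℕ} (hℓ : 1 ≤ ℓ) {A : ℕ → Matrix (Fin n) (Fin n) H}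
    (hA : SymCoeffG ℓ A) {v : Fin n → H} (hv : v ≠ 0) {ω : H} (hω : ω.re = 0)
    (heq : ∑ k ∈ Finset.range (ℓ + 1), A k *ᵥ (fun a => v a * ω ^ k) = 0)
    (hneu : ∑ k ∈ Finset.range (ℓ + 1), (k : ℝ) * (wv A v k * ω ^ (k - 1)).re = 0) :
    ¬ IsStablyBoundedG ℓ A := by
  rintro ⟨ε₀, hε₀, hstab⟩
  -- norm of v
  set ν : ℝ := ∑ a, ‖v a‖ ^ 2 with hν
  have hνpos : 0 < ν := by
    obtain ⟨a, ha⟩ := Function.ne_iff.1 hv
    have ha' : 0 < ‖v a‖ := norm_pos_iff.2 ha
    apply Finset.sum_pos' (fun i _ => by positivity) ⟨a, Finset.mem_univ a, by positivity⟩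
  have hvv : star v ⬝ᵥ v = (ν : H) := by
    have hcs : ((∑ a, ‖v a‖ ^ 2 : ℝ) : H) = ∑ a, ((‖v a‖ ^ 2 : ℝ) : H) :=
      map_sum (algebraMap ℝ (Quaternion ℝ)) (fun a => ‖v a‖ ^ 2) Finset.univ
    rw [hν, dotProduct, hcs]
    apply Finset.sum_congr rfl
    intro a _
    rw [Pi.star_apply, Quaternion.star_mul_self, Quaternion.normSq_eq_norm_mul_self, sq]
  set lam : ℝ → H := fun e => ω + (e : H) with hlam
  set r : ℝ → Fin n → H := fun e => ∑ k ∈ Finset.range (ℓ + 1), A k *ᵥ (fun a => v a * lam e ^ k)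
    with hr
  set α : ℝ → H := fun e => ν⁻¹ • ∑ k ∈ Finset.range (ℓ + 1), wv A v k * lam e ^ k with hα
  have hαr : ∀ e, star v ⬝ᵥ r e = (ν : H) * α e := by
    intro e
    have h1 : ∀ k, star v ⬝ᵥ (A k *ᵥ (fun a => v a * lam e ^ k)) = wv A v k * lam e ^ k := by
      intro k
      rw [mulVec_rmul, dot_rmul]; rfl
    simp only [hr, hα]
    rw [dotProduct_sum, Finset.sum_congr rfl (fun k _ => h1 k)]
    rw [mul_smul_comm, Quaternion.coe_mul_eq_smul, smul_smul, inv_mul_cancel₀ hνpos.ne', one_smul]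
  have hlamc : Continuous lam := by
    simp only [hlam]
    exact continuous_const.add Quaternion.continuous_coe
  have hrc : Continuous r := by
    simp only [hr]
    refine continuous_finsetSum _ (fun k _ => ?_)
    refine continuous_pi (fun a => ?_)
    simp only [Matrix.mulVec, dotProduct]
    fun_prop
  have hαc : Continuous α := by
    simp only [hα]
    fun_prop
  have hlam0 : lam 0 = ω := by simp [hlam]
  have hr0 : r 0 = 0 := by simp only [hr, hlam0]; exact heq
  have hα0 : α 0 = 0 := by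
    have h1 := hαr 0
    rw [hr0, dotProduct_zero] at h1
    rcases mul_eq_zero.1 h1.symm with h2 | h2
    · exfalso
      have h3 : ((ν : ℝ) : H) = ((0 : ℝ) : H) := by simpa using h2
      exact hνpos.ne' (Quaternion.coe_injective h3)
    · exact h2
  -- the function h
  set h : ℝ → ℝ := fun e => inner ℝ (α e) (1 : H) with hh
  have hhre : ∀ e, h e = (α e).re := by
    intro e
    simp only [hh]
    rw [Quaternion.inner_def, star_one, mul_one]
  have hαder : HasDerivAt α (ν⁻¹ • ∑ k ∈ Finset.range (ℓ + 1), wv A v k * ((k : ℝ) • ω ^ (k - 1))) 0 := by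
    have hs0 : HasDerivAt (fun e => ∑ k ∈ Finset.range (ℓ + 1), wv A v k * lam e ^ k)
        (∑ k ∈ Finset.range (ℓ + 1), wv A v k * ((k : ℝ) • ω ^ (k - 1))) 0 := by
      apply HasDerivAt.fun_sum
      intro k _
      have h1 := (hasDerivAt_shift_pow ω k 0).const_mul (wv A v k)
      have h2 : ω + ((0 : ℝ) : H) = ω := by simp
      rw [h2] at h1
      exact h1
    exact hs0.const_smul ν⁻¹
  have hhder : HasDerivAt h 0 0 := by
    have h1 := hαder.inner ℝ (hasDerivAt_const (0 : ℝ) (1 : H))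
    rw [inner_zero_right, zero_add] at h1
    have h2 : inner ℝ (ν⁻¹ • ∑ k ∈ Finset.range (ℓ + 1), wv A v k * ((k : ℝ) • ω ^ (k - 1))) (1 : H)
        = 0 := by
      rw [inner_smul_left, Quaternion.inner_def, star_one, mul_one, re_sum]
      have h3 : ∀ k, (wv A v k * ((k : ℝ) • ω ^ (k - 1))).re = (k : ℝ) * (wv A v k * ω ^ (k - 1)).re := by
        intro k
        rw [mul_smul_comm, Quaternion.re_smul, smul_eq_mul]
      rw [Finset.sum_congr rfl (fun k _ => h3 k), hneu]
      simp
    rw [h2] at h1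
    exact h1
  have hh0 : h 0 = 0 := by rw [hhre, hα0]; rfl
  set y : ℝ → ℝ := fun e => -(h e / e) with hy
  have hylim : Tendsto y (𝓝[≠] 0) (𝓝 0) := by
    have h1 := hasDerivAt_iff_tendsto_slope.1 hhder
    have h2 : Tendsto (fun e => -(slope h 0 e)) (𝓝[≠] 0) (𝓝 (-0)) := h1.neg
    rw [neg_zero] at h2
    refine h2.congr (fun e => ?_)
    rw [slope_def_field, hh0, sub_zero, sub_zero]
  have hαlim : Tendsto α (𝓝[≠] 0) (𝓝 0) := by
    have := (hαc.tendsto 0).mono_left (nhdsWithin_le_nhds (s := {0}ᶜ))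
    rwa [hα0] at this
  set x : ℝ → H := fun e => -(α e - ((h e : ℝ) : H)) - y e • ω with hx
  have hhlim : Tendsto h (𝓝[≠] 0) (𝓝 0) := by
    have h1 := hhder.continuousAt.tendsto.mono_left (nhdsWithin_le_nhds (s := {0}ᶜ))
    rwa [hh0] at h1
  have hxlim : Tendsto x (𝓝[≠] 0) (𝓝 0) := by
    have h2 : Tendsto (fun e => (h e : H)) (𝓝[≠] 0) (𝓝 ((0 : ℝ) : H)) :=
      (Quaternion.continuous_coe.tendsto 0).comp hhlim
    have h3 := ((hαlim.sub h2).neg).sub (hylim.smul_const ω)
    simp only [Quaternion.coe_zero, sub_zero, neg_zero, zero_smul] at h3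
    exact h3
  set s : ℝ → Fin n → H := fun e a => r e a - v a * α e with hs
  have hslim : ∀ a, Tendsto (fun e => s e a) (𝓝[≠] 0) (𝓝 0) := by
    intro a
    have h1 : Tendsto (fun e => r e a) (𝓝[≠] 0) (𝓝 0) := by
      have h0 : Continuous (fun e => r e a) := (continuous_apply a).comp hrc
      have := (h0.tendsto 0).mono_left (nhdsWithin_le_nhds (s := {0}ᶜ))
      simpa only [hr0, Pi.zero_apply] using this
    have h2 := h1.sub (hαlim.const_mul (v a))
    simpa using h2
  have hvs : ∀ e, star v ⬝ᵥ s e = 0 := by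
    intro e
    have h1 : s e = r e - (fun a => v a * α e) := rfl
    rw [h1, dotProduct_sub, dot_rmul, hαr, hvv, sub_self]
  have hsv : ∀ e, star (s e) ⬝ᵥ v = 0 := by
    intro e
    have h1 := congrArg star (hvs e)
    rw [star_zero, ← Matrix.star_dotProduct_star, star_star] at h1
    exact h1
  set X : ℝ → Matrix (Fin n) (Fin n) H := fun e => Matrix.of fun a b =>
    ν⁻¹ • (v a * star (s e b) - s e a * star (v b)) + ν⁻¹ • (v a * x e * star (v b)) with hX
  set Y : ℝ → Matrix (Fin n) (Fin n) H := fun e => Matrix.of fun a b =>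
    ν⁻¹ • (y e • (v a * star (v b))) with hY
  have hXlim : ∀ a b, Tendsto (fun e => X e a b) (𝓝[≠] 0) (𝓝 0) := by
    intro a b
    have h1 := (hslim a).mul_const (star (v b))
    have h2 : Tendsto (fun e => v a * star (s e b)) (𝓝[≠] 0) (𝓝 (v a * star 0)) :=
      ((hslim b).star).const_mul (v a)
    have h3 := ((hxlim.const_mul (v a)).mul_const (star (v b))).const_smul ν⁻¹
    have h4 := ((h2.sub h1).const_smul ν⁻¹).add h3
    simp only [hX, Matrix.of_apply]
    simpa using h4
  have hYlim : ∀ a b, Tendsto (fun e => Y e a b) (𝓝[≠] 0) (𝓝 0) := by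
    intro a b
    have h1 : Tendsto (fun e => ν⁻¹ • (y e • (v a * star (v b)))) (𝓝[≠] 0)
        (𝓝 (ν⁻¹ • ((0 : ℝ) • (v a * star (v b))))) := (hylim.smul_const _).const_smul ν⁻¹
    simp only [hY, Matrix.of_apply]
    simpa using h1
  have hev : ∀ᶠ e in 𝓝[≠] (0 : ℝ), (∀ a b, ‖X e a b‖ < ε₀) ∧ (∀ a b, ‖Y e a b‖ < ε₀) := by
    apply Eventually.and
    · rw [eventually_all]; intro a
      rw [eventually_all]; intro b
      have := (hXlim a b).norm
      rw [norm_zero] at this
      exact this.eventually (gt_mem_nhds hε₀)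
    · rw [eventually_all]; intro a
      rw [eventually_all]; intro b
      have := (hYlim a b).norm
      rw [norm_zero] at this
      exact this.eventually (gt_mem_nhds hε₀)
  obtain ⟨e, ⟨heX, heY⟩, he0⟩ := (hev.and self_mem_nhdsWithin).exists
  have he0' : e ≠ 0 := he0
  -- facts at e
  have hlamre : (lam e).re = e := by simp [hlam, hω]
  have hxre : (x e).re = 0 := by
    have h1 : (x e).re = -((α e).re - ((h e : ℝ) : H).re) - y e * ω.re := rfl
    rw [h1, hω, hhre, Quaternion.re_coe]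
    ring
  have hxstar : star (x e) = -(x e) := Quaternion.star_eq_neg.2 hxre
  have hsum : α e + x e + y e • lam e = 0 := by
    have h1 : y e • ((e : ℝ) : H) = ((-(h e) : ℝ) : H) := by
      rw [← Quaternion.coe_smul]
      congr 1
      simp only [hy, smul_eq_mul]
      field_simp
    simp only [hx, hlam]
    rw [smul_add, h1, Quaternion.coe_neg]
    abel
  have hXskew : (X e)ᴴ = -X e := by
    ext1 a b
    rw [Matrix.conjTranspose_apply, Matrix.neg_apply]
    simp only [hX, Matrix.of_apply]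
    exact skew_aux ν⁻¹ (v a) (v b) (s e a) (s e b) (x e) hxstar
  have hYherm : (Y e)ᴴ = Y e := by
    ext1 a b
    rw [Matrix.conjTranspose_apply]
    simp only [hY, Matrix.of_apply]
    rw [Quaternion.star_smul, Quaternion.star_smul, star_mul, star_star]
  have hXv : X e *ᵥ v = fun a => -(s e a) + v a * x e := by
    funext a
    simp only [Matrix.mulVec, dotProduct, hX, Matrix.of_apply]
    have h1 : ∀ b, (ν⁻¹ • (v a * star (s e b) - s e a * star (v b)) + ν⁻¹ • (v a * x e * star (v b))) * v b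
        = ν⁻¹ • (v a * (star (s e b) * v b) - s e a * (star (v b) * v b))
          + ν⁻¹ • ((v a * x e) * (star (v b) * v b)) := by
      intro b
      rw [add_mul, smul_mul_assoc, smul_mul_assoc, sub_mul]
      simp only [mul_assoc]
    rw [Finset.sum_congr rfl (fun b _ => h1 b), Finset.sum_add_distrib, ← Finset.smul_sum,
      ← Finset.smul_sum, Finset.sum_sub_distrib, ← Finset.mul_sum, ← Finset.mul_sum, ← Finset.mul_sum]
    have h2 : ∑ b, star (v b) * v b = (ν : H) := hvv
    have h3 : ∑ b, star (s e b) * v b = 0 := hsv e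
    rw [h2, h3, mul_zero, zero_sub, ← (Quaternion.coe_commutes ν (s e a)),
      ← (Quaternion.coe_commutes ν (v a * x e)), Quaternion.coe_mul_eq_smul,
      Quaternion.coe_mul_eq_smul, smul_neg, smul_smul, smul_smul, inv_mul_cancel₀ hνpos.ne', one_smul,
      one_smul]
  have hYv : Y e *ᵥ (fun a => v a * lam e) = fun a => v a * (y e • lam e) := by
    funext a
    simp only [Matrix.mulVec, dotProduct, hY, Matrix.of_apply]
    have h1 : ∀ b, (ν⁻¹ • (y e • (v a * star (v b)))) * (v b * lam e)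
        = ν⁻¹ • (y e • (v a * (star (v b) * v b) * lam e)) := by
      intro b
      rw [smul_mul_assoc, smul_mul_assoc]
      simp only [mul_assoc]
    rw [Finset.sum_congr rfl (fun b _ => h1 b), ← Finset.smul_sum, ← Finset.smul_sum,
      ← Finset.sum_mul, ← Finset.mul_sum]
    have h2 : ∑ b, star (v b) * v b = (ν : H) := hvv
    rw [h2, ← (Quaternion.coe_commutes ν (v a)), Quaternion.coe_mul_eq_smul, smul_mul_assoc,
      smul_smul, smul_smul, mul_smul_comm]
    congr 1
    field_simp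
  -- the perturbed coefficients
  set A' : ℕ → Matrix (Fin n) (Fin n) H := fun k =>
    if k = 0 then A 0 + X e else if k = 1 then A 1 + Y e else A k with hA'
  have hA'0 : A' 0 = A 0 + X e := by simp [hA']
  have hA'1 : A' 1 = A 1 + Y e := by simp [hA']
  have hA'2 : ∀ k, A' (k + 2) = A (k + 2) := by intro k; simp [hA']
  have hsym : SymCoeffG ℓ A' := by
    intro k hk
    rcases k with _ | _ | k
    · have h1 := (hA 0 hk).2 (by decide)
      refine ⟨fun h2 => absurd h2 (by decide), fun _ => ?_⟩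
      rw [hA'0, Matrix.conjTranspose_add, h1, hXskew, neg_add]
    · have h1 := (hA 1 hk).1 (by decide)
      refine ⟨fun _ => ?_, fun h2 => absurd h2 (by decide)⟩
      rw [hA'1, Matrix.conjTranspose_add, h1, hYherm]
    · rw [hA'2]; exact hA (k + 2) hk
  have hclose : ∀ k, k ≤ ℓ → ∀ a b, ‖A' k a b - A k a b‖ < ε₀ := by
    intro k hk a b
    rcases k with _ | _ | k
    · rw [hA'0, Matrix.add_apply, add_sub_cancel_left]; exact heX a b
    · rw [hA'1, Matrix.add_apply, add_sub_cancel_left]; exact heY a b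
    · rw [hA'2, sub_self, norm_zero]; exact hε₀
  have hbd := hstab A' hsym hclose
  refine unbounded_exp hv (l := lam e) (by rw [hlamre]; exact he0') ?_ hbd
  -- the equation
  obtain ⟨L, rfl⟩ : ∃ L, ℓ = L + 1 := ⟨ℓ - 1, by omega⟩
  have hre : r e = (∑ k ∈ Finset.range L, A (k + 2) *ᵥ (fun a => v a * lam e ^ (k + 2)))
      + A 1 *ᵥ (fun a => v a * lam e) + A 0 *ᵥ v := by
    simp only [hr]
    rw [Finset.sum_range_succ', Finset.sum_range_succ']
    simp [pow_one]
  rw [Finset.sum_range_succ', Finset.sum_range_succ']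
  have h1 : ∀ k, A' (k + 1 + 1) = A (k + 2) := fun k => hA'2 k
  simp only [h1]
  rw [show (0 : ℕ) + 1 = 1 from rfl, hA'0, hA'1, Matrix.add_mulVec, Matrix.add_mulVec]
  have h2 : (fun a => v a * lam e ^ 1) = fun a => v a * lam e := by funext a; rw [pow_one]
  have h3 : (fun a => v a * lam e ^ 0) = v := by funext a; rw [pow_zero, mul_one]
  rw [h2, h3, hXv, hYv]
  funext a
  have h4 := congrFun hre a
  have h6 := congrArg (fun z => v a * z) hsum
  simp only [Pi.add_apply, Pi.zero_apply, mul_zero, mul_add] at h4 h6 ⊢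
  have h5 : s e a = r e a - v a * α e := rfl
  rw [h5, h4]
  have h7 : v a * (y e • lam e) = -(v a * α e + v a * x e) := eq_neg_of_add_eq_zero_right h6
  rw [h7]
  abel

section main

variable {n L : ℕ} {A : ℕ → Matrix (Fin n) (Fin n) H}

/-- the quadratic form -/
noncomputable def qfG (A : ℕ → Matrix (Fin n) (Fin n) H) (V : Fin (L + 1) × Fin n → H) : ℝ :=
  (star V ⬝ᵥ (gmat (L + 1) A *ᵥ V)).re

lemma z_commG (hA : SymCoeffG (L + 1) A) (hinv : IsUnit (A (L + 1))) {μ : ℝ} (hμ : 0 < μ)
    {a b : Fin (L + 1) × Fin n → H} (ha : companion (L + 1) A *ᵥ a = fun p => a p * om μ)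
    (hb : companion (L + 1) A *ᵥ b = fun p => b p * om μ) :
    (star a ⬝ᵥ (gmat (L + 1) A *ᵥ b)).imJ = 0 ∧
    (star a ⬝ᵥ (gmat (L + 1) A *ᵥ b)).imK = 0 := by
  set G := gmat (L + 1) A with hG
  set C := companion (L + 1) A with hC
  set y := star a ⬝ᵥ (G *ᵥ b) with hy
  have h1 : star a ⬝ᵥ ((G * C) *ᵥ b) = y * om μ := by
    rw [← Matrix.mulVec_mulVec, hb, mulVec_rmul, dot_rmul]
  have h2 : star a ⬝ᵥ ((G * C) *ᵥ b) = om μ * y := by
    have h3 : star a ⬝ᵥ ((G * C) *ᵥ b) = -(star ((G * C) *ᵥ a) ⬝ᵥ b) := by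
      rw [Matrix.dotProduct_mulVec, Matrix.star_mulVec, gc_skew hA hinv, Matrix.vecMul_neg,
        neg_dotProduct, neg_neg]
    rw [h3, ← Matrix.mulVec_mulVec, ha, mulVec_rmul, star_rmul_dot, star_om, Matrix.star_mulVec,
      gmat_herm hA, ← Matrix.dotProduct_mulVec, neg_mul, neg_neg]
  apply comm_om hμ
  rw [← h1, h2]

lemma qf_decomposeG (hA : SymCoeffG (L + 1) A) (hinv : IsUnit (A (L + 1))) {μ : ℝ} (hμ : 0 < μ)
    {a b : Fin (L + 1) × Fin n → H} (ha : companion (L + 1) A *ᵥ a = fun p => a p * om μ)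
    (hb : companion (L + 1) A *ᵥ b = fun p => b p * om μ) :
    qfG A (a + fun p => b p * jj) = qfG A a + qfG A b := by
  unfold qfG
  set K := gmat (L + 1) A with hK
  rw [Matrix.mulVec_add, mulVec_rmul, star_add, add_dotProduct, dotProduct_add, dotProduct_add,
    star_rmul_dot, star_rmul_dot, dot_rmul, dot_rmul]
  have h1 := z_commG hA hinv hμ ha hb
  have h2 := z_commG hA hinv hμ hb ha
  rw [← hK] at h1 h2
  simp only [Quaternion.re_add]
  have e1 : (star a ⬝ᵥ K *ᵥ b * jj).re = 0 := by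
    rw [Quaternion.re_mul]; simp [jj, h1.1]
  have e2 : (star jj * (star b ⬝ᵥ K *ᵥ a)).re = 0 := by
    rw [star_jj, neg_mul, Quaternion.re_neg, Quaternion.re_mul]; simp [jj, h2.1]
  have e3 : (star jj * (star b ⬝ᵥ K *ᵥ b * jj)).re = (star b ⬝ᵥ K *ᵥ b).re := by
    rw [re_mul_comm, mul_assoc, star_jj, mul_neg, jj_sq, ← Quaternion.coe_neg, neg_neg,
      Quaternion.coe_one, mul_one]
  rw [e1, e2, e3]
  ring

/-- the form on an eigenvector -/
lemma qf_eigvecG {μ : ℝ} {c : Fin (L + 1) × Fin n → H}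
    (hc : companion (L + 1) A *ᵥ c = fun p => c p * om μ) :
    qfG A c = ∑ k ∈ Finset.range (L + 1 + 1),
      (k : ℝ) * (wv A (fun a => c (⟨0, by omega⟩, a)) k * om μ ^ (k - 1)).re := by
  set v : Fin n → H := fun a => c (⟨0, by omega⟩, a) with hv
  set f : ℕ → ℝ := fun k => (wv A v k * om μ ^ (k - 1)).re with hf
  have hcb : ∀ (k : Fin (L + 1)) (a : Fin n), c (k, a) = v a * om μ ^ (k : ℕ) :=
    fun k a => eigvec_block hc k k.2 a
  have hst : ∀ m : ℕ, star (om μ ^ m) = (-1 : ℝ) ^ m • om μ ^ m := by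
    intro m
    rw [star_pow, star_om, neg_pow]
    rcases Nat.even_or_odd m with h | h
    · rw [h.neg_one_pow, h.neg_one_pow, one_mul, one_smul]
    · rw [h.neg_one_pow, h.neg_one_pow, neg_one_mul, neg_smul, one_smul]
  -- the block (i, j)
  have hblock : ∀ i j : Fin (L + 1), (∑ a, ∑ b, star (c (i, a)) *
      (gmat (L + 1) A (i, a) (j, b) * c (j, b))).re
      = if (j : ℕ) < L + 1 - (i : ℕ) then f ((i : ℕ) + (j : ℕ) + 1) else 0 := by
    intro i j
    by_cases hij : (j : ℕ) < L + 1 - (i : ℕ)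
    · rw [if_pos hij]
      have h2 : ∀ a b, star (c (i, a)) * (gmat (L + 1) A (i, a) (j, b) * c (j, b))
          = om μ ^ (i : ℕ) * (star (v a) * (A ((i : ℕ) + (j : ℕ) + 1) a b * v b))
            * om μ ^ (j : ℕ) := by
        intro a b
        rw [hcb, hcb, star_mul, hst]
        unfold gmat
        rw [if_pos (by simp only []; omega), Matrix.smul_apply]
        simp only [smul_mul_assoc, mul_smul_comm, smul_smul]
        rw [← pow_add, ← two_mul, pow_mul]
        simp only [neg_one_sq, one_pow, one_smul, mul_assoc]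
      simp only [h2]
      have h3 : ∑ a, ∑ b, om μ ^ (i : ℕ) * (star (v a) * (A ((i : ℕ) + (j : ℕ) + 1) a b * v b))
            * om μ ^ (j : ℕ)
          = om μ ^ (i : ℕ) * wv A v ((i : ℕ) + (j : ℕ) + 1) * om μ ^ (j : ℕ) := by
        unfold wv
        simp only [Matrix.mulVec, dotProduct, Finset.mul_sum, Finset.sum_mul, Pi.star_apply]
      rw [h3, mul_assoc, re_mul_comm, mul_assoc, ← pow_add, hf]
      simp only []
      congr 3
      omega
    · rw [if_neg hij]
      have h2 : ∀ a b, star (c (i, a)) * (gmat (L + 1) A (i, a) (j, b) * c (j, b)) = 0 := by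
        intro a b
        unfold gmat
        rw [if_neg (by simp only []; omega), zero_mul, mul_zero]
      simp only [h2, Finset.sum_const_zero]
      rfl
  have h4 : star c ⬝ᵥ (gmat (L + 1) A *ᵥ c) = ∑ i : Fin (L + 1), ∑ j : Fin (L + 1),
      ∑ a, ∑ b, star (c (i, a)) * (gmat (L + 1) A (i, a) (j, b) * c (j, b)) := by
    simp only [Matrix.mulVec, dotProduct, Fintype.sum_prod_type, Finset.mul_sum,
      Pi.star_apply]
    apply Finset.sum_congr rfl
    intro i _
    rw [Finset.sum_comm]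
  unfold qfG
  rw [h4, re_sum]
  have h5 : ∀ i : Fin (L + 1), (∑ j : Fin (L + 1),
      ∑ a, ∑ b, star (c (i, a)) * (gmat (L + 1) A (i, a) (j, b) * c (j, b))).re
      = ∑ j ∈ Finset.range (L + 1 - (i : ℕ)), f ((i : ℕ) + j + 1) := by
    intro i
    rw [re_sum, Finset.sum_congr rfl (fun j _ => hblock i j)]
    rw [Fin.sum_univ_eq_sum_range (fun j => if j < L + 1 - (i : ℕ) then f ((i : ℕ) + j + 1) else 0),
      ← Finset.sum_filter]
    apply Finset.sum_congr _ (fun _ _ => rfl)
    ext j
    simp only [Finset.mem_filter, Finset.mem_range]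
    omega
  rw [Finset.sum_congr rfl (fun i _ => h5 i)]
  rw [Fin.sum_univ_eq_sum_range (fun i => ∑ j ∈ Finset.range (L + 1 - i), f (i + j + 1)),
    ← Finset.sum_range_diag_flip (L + 1) (fun i j => f (i + j + 1)),
    Finset.sum_range_succ' (fun k : ℕ => (k : ℝ) * (wv A v k * om μ ^ (k - 1)).re) (L + 1),
    Nat.cast_zero, zero_mul, add_zero]
  apply Finset.sum_congr rfl
  intro m _
  have h6 : ∀ k ∈ Finset.range (m + 1), f (k + (m - k) + 1) = f (m + 1) := by
    intro k hk
    rw [Finset.mem_range] at hk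
    congr 1
    omega
  rw [Finset.sum_congr rfl h6, Finset.sum_const, Finset.card_range, nsmul_eq_mul]

/-- in a stably bounded system there is no neutral eigenvector -/
lemma no_neutralG (hA : SymCoeffG (L + 1) A) (hinv : IsUnit (A (L + 1)))
    (hst : IsStablyBoundedG (L + 1) A) {μ : ℝ} {c : Fin (L + 1) × Fin n → H}
    (hc : companion (L + 1) A *ᵥ c = fun p => c p * om μ) (hc0 : c ≠ 0) : qfG A c ≠ 0 := by
  intro hq
  rw [qf_eigvecG hc] at hq
  exact not_stable_of_neutralG (by omega) hA (eigvec_ne hc hc0) (om_re μ)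
    (eigvec_eq hinv hc) hq hst

lemma qf_pathG (c d : Fin (L + 1) × Fin n → H) :
    Continuous (fun s : ℝ => qfG A ((1 - s) • c + s • d)) := by
  unfold qfG
  have : Continuous (fun s : ℝ => star ((1 - s) • c + s • d) ⬝ᵥ
      (gmat (L + 1) A *ᵥ ((1 - s) • c + s • d))) := by
    simp only [Matrix.mulVec, dotProduct, Pi.star_apply, Pi.add_apply, Pi.smul_apply]
    fun_prop
  exact Quaternion.continuous_re.comp this

lemma qf_smulG (r : ℝ) (c : Fin (L + 1) × Fin n → H) : qfG A (r • c) = r ^ 2 * qfG A c := by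
  unfold qfG
  have h1 : star (r • c) = r • star c := by
    funext p
    rw [Pi.star_apply, Pi.smul_apply, Pi.smul_apply, Pi.star_apply, Quaternion.star_smul]
  rw [Matrix.mulVec_smul, h1, smul_dotProduct, dotProduct_smul, smul_smul,
    Quaternion.re_smul, smul_eq_mul, sq]

/-- the form is definite on the eigenvectors -/
lemma definite_eigG (hA : SymCoeffG (L + 1) A) (hinv : IsUnit (A (L + 1)))
    (hst : IsStablyBoundedG (L + 1) A) {μ : ℝ} {c d : Fin (L + 1) × Fin n → H}
    (hc : companion (L + 1) A *ᵥ c = fun p => c p * om μ) (hc0 : c ≠ 0)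
    (hd : companion (L + 1) A *ᵥ d = fun p => d p * om μ)
    (hqc : qfG A c < 0) (hqd : 0 < qfG A d) : False := by
  have hcont := qf_pathG (A := A) c d
  obtain ⟨s, hs, hqs⟩ := intermediate_value_Icc (zero_le_one (α := ℝ)) hcont.continuousOn
    (show (0 : ℝ) ∈ Set.Icc _ _ from ⟨by simpa using hqc.le, by simpa using hqd.le⟩)
  have heig : companion (L + 1) A *ᵥ ((1 - s) • c + s • d)
      = fun p => ((1 - s) • c + s • d) p * om μ := by
    rw [Matrix.mulVec_add, Matrix.mulVec_smul, Matrix.mulVec_smul, hc, hd]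
    funext p
    simp only [Pi.add_apply, Pi.smul_apply, add_mul, smul_mul_assoc]
  by_cases h0 : (1 - s) • c + s • d = 0
  · -- then `d` is a multiple of `c`
    have hs0 : s ≠ 0 := by
      rintro rfl
      rw [sub_zero, one_smul, zero_smul, add_zero] at h0
      exact hc0 h0
    have h1 : d = (-((1 - s) / s)) • c := by
      have h2 : s • d = -((1 - s) • c) := eq_neg_of_add_eq_zero_right h0
      have h3 : d = s⁻¹ • (s • d) := by rw [smul_smul, inv_mul_cancel₀ hs0, one_smul]
      rw [h3, h2, smul_neg, smul_smul, ← neg_smul]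
      congr 1
      field_simp
    rw [h1, qf_smulG] at hqd
    nlinarith [sq_nonneg (-((1 - s) / s))]
  · exact no_neutralG hA hinv hst heig h0 hqs

/-- in a bounded system the eigenvalue zero is semisimple -/
lemma kernel_zero (hinv : IsUnit (A (L + 1))) (hb : IsBoundedSystem (L + 1) A)
    (W : Fin (L + 1) × Fin n → H) (h : companion (L + 1) A *ᵥ (companion (L + 1) A *ᵥ W) = 0) :
    companion (L + 1) A *ᵥ W = 0 := by
  set C := companion (L + 1) A with hC
  set y : ℝ → Fin (L + 1) × Fin n → H := fun s => W + s • (C *ᵥ W) with hy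
  have hder : ∀ t q, HasDerivAt (fun s => y s q) ((C *ᵥ y t) q) t := by
    intro t q
    have h1 : C *ᵥ y t = C *ᵥ W := by
      simp only [hy]
      rw [Matrix.mulVec_add, Matrix.mulVec_smul, h, smul_zero, add_zero]
    rw [h1]
    have h2 := ((hasDerivAt_id t).smul_const ((C *ᵥ W) q)).const_add (W q)
    rw [one_smul] at h2
    exact h2
  obtain ⟨c, hc⟩ := hb _ (isSolution_first hinv (y := y) hder)
  have hblock : ∀ a, (C *ᵥ W) (⟨0, by omega⟩, a) = 0 := by
    intro a
    by_contra hne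
    have hpos : 0 < ‖(C *ᵥ W) (⟨0, by omega⟩, a)‖ := norm_pos_iff.2 hne
    set t : ℝ := (c + ‖W (⟨0, by omega⟩, a)‖ + 1) / ‖(C *ᵥ W) (⟨0, by omega⟩, a)‖ with ht
    have h1 : ‖y t (⟨0, by omega⟩, a)‖ ≤ c :=
      (norm_le_pi_norm (fun a => y t (⟨0, by omega⟩, a)) a).trans (hc t)
    have hc0 : 0 ≤ c := (norm_nonneg _).trans h1
    have ht0 : 0 ≤ t := by
      rw [ht]
      have := norm_nonneg (W (⟨0, by omega⟩, a))
      positivity
    have h2 : ‖t • (C *ᵥ W) (⟨0, by omega⟩, a)‖ ≤ c + ‖W (⟨0, by omega⟩, a)‖ := by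
      calc ‖t • (C *ᵥ W) (⟨0, by omega⟩, a)‖ = ‖y t (⟨0, by omega⟩, a) - W (⟨0, by omega⟩, a)‖ := by
            congr 1
            simp only [hy, Pi.add_apply, Pi.smul_apply]
            abel
        _ ≤ _ := (norm_sub_le _ _).trans (by linarith)
    rw [norm_smul, Real.norm_eq_abs, abs_of_nonneg ht0, ht, div_mul_cancel₀ _ hpos.ne'] at h2
    linarith
  have heig : C *ᵥ (C *ᵥ W) = fun p => (C *ᵥ W) p * (0 : H) := by
    rw [h]; funext p; simp
  funext ⟨⟨k, hk⟩, a⟩
  rw [eigvec_block heig k hk a, hblock a, zero_mul]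
  rfl

/-- **The main theorem.** -/
theorem definite (n ℓ : ℕ) (hn : 1 ≤ n) (hℓ : 1 ≤ ℓ) (A : ℕ → Matrix (Fin n) (Fin n) H)
    (hA : SymCoeffG ℓ A) (hinv : IsUnit (A ℓ)) (hst : IsStablyBoundedG ℓ A) (l : H)
    (hl : IsEigenvalue (companion ℓ A) l) :
    IsPositiveOn (gmat ℓ A) (rootSubspace (companion ℓ A) l) ∨
      IsNegativeOn (gmat ℓ A) (rootSubspace (companion ℓ A) l) := by
  obtain ⟨L, rfl⟩ : ∃ L, ℓ = L + 1 := ⟨ℓ - 1, by omega⟩
  set C := companion (L + 1) A with hCdef
  -- the system is bounded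
  have hb : IsBoundedSystem (L + 1) A := by
    obtain ⟨ε, hε, h⟩ := hst
    exact h A hA (fun k _ a b => by rw [sub_self, norm_zero]; exact hε)
  -- the eigenvalue is purely imaginary
  obtain ⟨V, hV0, hV⟩ := hl
  have hre : l.re = 0 := by
    by_contra hre
    exact unbounded_exp (eigvec_ne hV hV0) hre (eigvec_eq hinv hV) hb
  have hcard : Fintype.card (Fin (L + 1) × Fin n) = (Fintype.card (Fin (L + 1) × Fin n) - 1) + 1 := by
    have : 0 < Fintype.card (Fin (L + 1) × Fin n) := by
      rw [Fintype.card_prod, Fintype.card_fin, Fintype.card_fin]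
      exact Nat.mul_pos (by omega) (by omega)
    omega
  set μ : ℝ := ‖l‖ with hμdef
  -- the form is real
  have hreal : ∀ W : Fin (L + 1) × Fin n → H,
      star W ⬝ᵥ (gmat (L + 1) A *ᵥ W) = ((qfG A W : ℝ) : H) := by
    intro W
    have h1 : star (star W ⬝ᵥ (gmat (L + 1) A *ᵥ W)) = star W ⬝ᵥ (gmat (L + 1) A *ᵥ W) := by
      rw [← Matrix.star_dotProduct_star, star_star, Matrix.star_mulVec, gmat_herm hA,
        Matrix.dotProduct_mulVec]
    exact Quaternion.star_eq_self.1 h1
  have hq0 : qfG A (0 : Fin (L + 1) × Fin n → H) = 0 := by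
    have := qf_smulG (A := A) (0 : ℝ) (0 : Fin (L + 1) × Fin n → H)
    rw [smul_zero] at this
    rw [this]; ring
  -- eigenvectors from vectors of the root subspace
  have hdec : ∀ W ∈ rootSubspace C l, W ≠ 0 → ∃ a b : Fin (L + 1) × Fin n → H,
      C *ᵥ a = (fun p => a p * om μ) ∧ C *ᵥ b = (fun p => b p * om μ) ∧ (a ≠ 0 ∨ b ≠ 0) ∧
      qfG A W = qfG A a + qfG A b := by
    by_cases hl0 : l = 0
    · -- the eigenvalue zero
      have hroot : rootPoly C l = C := by
        unfold rootPoly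
        rw [if_pos (by rw [hl0]; rfl), hl0]
        have h0 : (QuaternionAlgebra.re (0 : H)) = 0 := rfl
        rw [h0, zero_smul, sub_zero]
      intro W hW hW0
      have hW' : C ^ (Fintype.card (Fin (L + 1) × Fin n)) *ᵥ W = 0 := by
        have : (rootPoly C l) ^ (Fintype.card (Fin (L + 1) × Fin n)) *ᵥ W = 0 := hW
        rwa [hroot] at this
      have hstep : ∀ k : ℕ, C ^ (k + 1) *ᵥ W = 0 → C *ᵥ W = 0 := by
        intro k
        induction k with
        | zero => intro h; rwa [zero_add, pow_one] at h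
        | succ k ih =>
          intro h
          apply ih
          rw [pow_succ', ← Matrix.mulVec_mulVec]
          apply kernel_zero hinv hb
          rw [← hCdef, Matrix.mulVec_mulVec, Matrix.mulVec_mulVec, ← sq, ← pow_add,
            show 2 + k = k + 1 + 1 by ring]
          exact h
      rw [hcard] at hW'
      have h1 := hstep _ hW'
      have hμ0 : om μ = 0 := by
        rw [hμdef, hl0, norm_zero]
        rfl
      refine ⟨W, 0, ?_, ?_, Or.inl hW0, by rw [hq0, add_zero]⟩
      · rw [h1, hμ0]; funext p; simp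
      · rw [Matrix.mulVec_zero]; funext p; simp
    · have hμ : 0 < μ := norm_pos_iff.2 hl0
      -- the root polynomial
      have hnotreal : ¬ l = (l.re : H) := by
        rw [hre]
        intro h
        exact hl0 (h.trans Quaternion.coe_zero)
      have hroot : rootPoly C l = C ^ 2 + (μ ^ 2) • 1 := by
        unfold rootPoly
        rw [if_neg hnotreal, hre, mul_zero, zero_smul, sub_zero]
      have hker : ∀ W ∈ rootSubspace C l, C *ᵥ (C *ᵥ W) = -((μ ^ 2) • W) := by
        intro W hW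
        have hW' : (C ^ 2 + (μ ^ 2) • 1) ^ (Fintype.card (Fin (L + 1) × Fin n)) *ᵥ W = 0 := by
          rw [← hroot]; exact hW
        have hstep : ∀ k : ℕ, (C ^ 2 + (μ ^ 2) • 1) ^ (k + 1) *ᵥ W = 0 →
            (C ^ 2 + (μ ^ 2) • 1) *ᵥ W = 0 := by
          intro k
          induction k with
          | zero => intro h; rwa [zero_add, pow_one] at h
          | succ k ih =>
            intro h
            apply ih
            rw [pow_succ', ← Matrix.mulVec_mulVec]
            apply kernel_sq hinv hb hμ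
            rw [← hCdef, Matrix.mulVec_mulVec, Matrix.mulVec_mulVec, ← sq, ← pow_add,
              show 2 + k = k + 1 + 1 by ring]
            exact h
        rw [hcard] at hW'
        have h1 := hstep _ hW'
        rw [Matrix.add_mulVec, sq C, ← Matrix.mulVec_mulVec, Matrix.smul_mulVec,
          Matrix.one_mulVec] at h1
        exact eq_neg_of_add_eq_zero_left h1
      intro W hW hW0
      obtain ⟨a, b, ha, hb', hab⟩ := decompose C hμ W (hker W hW)
      refine ⟨a, b, ha, hb', ?_, ?_⟩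
      · by_contra hcon
        push Not at hcon
        apply hW0
        rw [hab, hcon.1, hcon.2]
        funext p; simp
      · rw [hab]; exact qf_decomposeG hA hinv hμ ha hb'
  have hneg : ∀ W ∈ rootSubspace C l, W ≠ 0 → qfG A W ≤ 0 → ∃ c : Fin (L + 1) × Fin n → H,
      C *ᵥ c = (fun p => c p * om μ) ∧ c ≠ 0 ∧ qfG A c < 0 := by
    intro W hW hW0 hle
    obtain ⟨a, b, ha, hb', hab, hq⟩ := hdec W hW hW0
    by_cases ha0 : a = 0
    · have hb0 : b ≠ 0 := by rcases hab with h | h; exact absurd ha0 h; exact h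
      rw [ha0, hq0, zero_add] at hq
      exact ⟨b, hb', hb0, lt_of_le_of_ne (hq ▸ hle) (no_neutralG hA hinv hst hb' hb0)⟩
    · by_cases hb0 : b = 0
      · rw [hb0, hq0, add_zero] at hq
        exact ⟨a, ha, ha0, lt_of_le_of_ne (hq ▸ hle) (no_neutralG hA hinv hst ha ha0)⟩
      · by_cases hqa : qfG A a ≤ 0
        · exact ⟨a, ha, ha0, lt_of_le_of_ne hqa (no_neutralG hA hinv hst ha ha0)⟩
        · push Not at hqa
          exact ⟨b, hb', hb0, by linarith⟩
  have hpos : ∀ W ∈ rootSubspace C l, W ≠ 0 → 0 ≤ qfG A W → ∃ c : Fin (L + 1) × Fin n → H,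
      C *ᵥ c = (fun p => c p * om μ) ∧ c ≠ 0 ∧ 0 < qfG A c := by
    intro W hW hW0 hle
    obtain ⟨a, b, ha, hb', hab, hq⟩ := hdec W hW hW0
    by_cases ha0 : a = 0
    · have hb0 : b ≠ 0 := by rcases hab with h | h; exact absurd ha0 h; exact h
      rw [ha0, hq0, zero_add] at hq
      exact ⟨b, hb', hb0, lt_of_le_of_ne (hq ▸ hle) (no_neutralG hA hinv hst hb' hb0).symm⟩
    · by_cases hb0 : b = 0
      · rw [hb0, hq0, add_zero] at hq
        exact ⟨a, ha, ha0, lt_of_le_of_ne (hq ▸ hle) (no_neutralG hA hinv hst ha ha0).symm⟩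
      · by_cases hqa : 0 ≤ qfG A a
        · exact ⟨a, ha, ha0, lt_of_le_of_ne hqa (no_neutralG hA hinv hst ha ha0).symm⟩
        · push Not at hqa
          exact ⟨b, hb', hb0, by linarith⟩
  by_cases hall : ∀ W ∈ rootSubspace C l, W ≠ 0 → 0 < qfG A W
  · left
    intro W hW hW0
    exact ⟨qfG A W, hall W hW hW0, hreal W⟩
  · right
    push Not at hall
    obtain ⟨W1, hW1, hW10, hle1⟩ := hall
    obtain ⟨c, hc, hc0, hqc⟩ := hneg W1 hW1 hW10 hle1
    intro W hW hW0
    refine ⟨qfG A W, ?_, hreal W⟩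
    by_contra hcon
    push Not at hcon
    obtain ⟨d, hd, -, hqd⟩ := hpos W hW hW0 hcon
    exact definite_eigG hA hinv hst hc hc0 hd hqc hqd

end main

end Pool.Agent.X98.QG
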