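import Pool.Agent.X98.QG.Inv

/-!
Nonstandard involutions of the quaternions: `φ x = β⁻¹ (star x) β` with `β` a unit pure quaternion.
Transfer of stable boundedness from `φ`-structured systems to hermitian / skewhermitian ones.
-/

set_option autoImplicit false
set_option linter.unusedSimpArgs false

open Matrix Filter Topology

namespace Pool.Agent.X98.QG.Phi

open Pool.Agent.H636R3.Quat Pool.Agent.X98.QG

/-- A nonstandard involution of the quaternions: a real-linear map that reverses products, has order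
two and is not the quaternion conjugation. -/
structure IsNonstandardInvolution (φ : H →ₗ[ℝ] H) : Prop where
  map_mul : ∀ x y, φ (x * y) = φ y * φ x
  map_map : ∀ x, φ (φ x) = x
  not_conj : ∃ x, φ x ≠ star x

/-- the quaternion unit `i` -/
def qi : H := ⟨0, 1, 0, 0⟩
/-- the quaternion unit `j` -/
def qj : H := ⟨0, 0, 1, 0⟩
/-- the quaternion unit `k` -/
def qk : H := ⟨0, 0, 0, 1⟩

lemma qi_re : qi.re = 0 := rfl
lemma qi_i : qi.imI = 1 := rfl
lemma qi_j : qi.imJ = 0 := rfl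
lemma qi_k : qi.imK = 0 := rfl
lemma qj_re : qj.re = 0 := rfl
lemma qj_i : qj.imI = 0 := rfl
lemma qj_j : qj.imJ = 1 := rfl
lemma qj_k : qj.imK = 0 := rfl
lemma qk_re : qk.re = 0 := rfl
lemma qk_i : qk.imI = 0 := rfl
lemma qk_j : qk.imJ = 0 := rfl
lemma qk_k : qk.imK = 1 := rfl

lemma one_re : (1 : H).re = 1 := rfl
lemma one_i : (1 : H).imI = 0 := rfl
lemma one_j : (1 : H).imJ = 0 := rfl
lemma one_k : (1 : H).imK = 0 := rfl
lemma zero_re : (0 : H).re = 0 := rfl
lemma zero_i : (0 : H).imI = 0 := rfl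
lemma zero_j : (0 : H).imJ = 0 := rfl
lemma zero_k : (0 : H).imK = 0 := rfl

lemma hext {x y : H} (h1 : x.re = y.re) (h2 : x.imI = y.imI) (h3 : x.imJ = y.imJ)
    (h4 : x.imK = y.imK) : x = y := QuaternionAlgebra.ext h1 h2 h3 h4

lemma decomp (y : H) : y = y.re • (1 : H) + y.imI • qi + y.imJ • qj + y.imK • qk := by
  apply hext <;> simp [one_re, one_i, one_j, one_k, qi_re, qi_i, qi_j, qi_k, qj_re, qj_i, qj_j, qj_k, qk_re, qk_i, qk_j, qk_k]

lemma star_decomp (y : H) :
    star y = y.re • (1 : H) - y.imI • qi - y.imJ • qj - y.imK • qk := by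
  apply hext <;> simp [one_re, one_i, one_j, one_k, qi_re, qi_i, qi_j, qi_k, qj_re, qj_i, qj_j, qj_k, qk_re, qk_i, qk_j, qk_k]

lemma qii : qi * qi = -1 := by
  apply hext <;> simp [one_re, one_i, one_j, one_k, qi_re, qi_i, qi_j, qi_k, qj_re, qj_i, qj_j, qj_k, qk_re, qk_i, qk_j, qk_k]
lemma qjj : qj * qj = -1 := by
  apply hext <;> simp [one_re, one_i, one_j, one_k, qi_re, qi_i, qi_j, qi_k, qj_re, qj_i, qj_j, qj_k, qk_re, qk_i, qk_j, qk_k]
lemma qkk : qk * qk = -1 := by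
  apply hext <;> simp [one_re, one_i, one_j, one_k, qi_re, qi_i, qi_j, qi_k, qj_re, qj_i, qj_j, qj_k, qk_re, qk_i, qk_j, qk_k]
lemma qij : qi * qj = qk := by
  apply hext <;> simp [one_re, one_i, one_j, one_k, qi_re, qi_i, qi_j, qi_k, qj_re, qj_i, qj_j, qj_k, qk_re, qk_i, qk_j, qk_k]
lemma qjk : qj * qk = qi := by
  apply hext <;> simp [one_re, one_i, one_j, one_k, qi_re, qi_i, qi_j, qi_k, qj_re, qj_i, qj_j, qj_k, qk_re, qk_i, qk_j, qk_k]
lemma qki : qk * qi = qj := by
  apply hext <;> simp [one_re, one_i, one_j, one_k, qi_re, qi_i, qi_j, qi_k, qj_re, qj_i, qj_j, qj_k, qk_re, qk_i, qk_j, qk_k]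
lemma qji : qj * qi = -qk := by
  apply hext <;> simp [one_re, one_i, one_j, one_k, qi_re, qi_i, qi_j, qi_k, qj_re, qj_i, qj_j, qj_k, qk_re, qk_i, qk_j, qk_k]
lemma qkj : qk * qj = -qi := by
  apply hext <;> simp [one_re, one_i, one_j, one_k, qi_re, qi_i, qi_j, qi_k, qj_re, qj_i, qj_j, qj_k, qk_re, qk_i, qk_j, qk_k]
lemma qik : qi * qk = -qj := by
  apply hext <;> simp [one_re, one_i, one_j, one_k, qi_re, qi_i, qi_j, qi_k, qj_re, qj_i, qj_j, qj_k, qk_re, qk_i, qk_j, qk_k]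

variable {φ : H →ₗ[ℝ] H}

/-- averaging operator -/
noncomputable def T (φ : H →ₗ[ℝ] H) (x : H) : H :=
  x + qi * x * φ qi + qj * x * φ qj + qk * x * φ qk

lemma T_trace (φ : H →ₗ[ℝ] H) :
    (T φ 1).re + (T φ qi).imI + (T φ qj).imJ + (T φ qk).imK = 4 := by
  unfold T
  simp [one_re, one_i, one_j, one_k, qi_re, qi_i, qi_j, qi_k, qj_re, qj_i, qj_j, qj_k, qk_re, qk_i, qk_j, qk_k]
  ring

lemma phi_one (h : IsNonstandardInvolution φ) : φ 1 = 1 := by
  have h1 : φ 1 = φ 1 * φ 1 := by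
    conv_lhs => rw [← mul_one (1 : H), h.map_mul]
  have h2 : φ 1 ≠ 0 := by
    intro h0
    have := h.map_map 1
    rw [h0, map_zero] at this
    exact zero_ne_one this
  have h3 : φ 1 * (φ 1 - 1) = 0 := by rw [mul_sub, mul_one, ← h1, sub_self]
  rcases mul_eq_zero.1 h3 with h4 | h4
  · exact absurd h4 h2
  · exact sub_eq_zero.1 h4

lemma rel (h : IsNonstandardInvolution φ) :
    φ qi * φ qi = -1 ∧ φ qj * φ qj = -1 ∧ φ qk * φ qk = -1 ∧
    φ qj * φ qi = φ qk ∧ φ qk * φ qj = φ qi ∧ φ qi * φ qk = φ qj ∧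
    φ qi * φ qj = -φ qk ∧ φ qj * φ qk = -φ qi ∧ φ qk * φ qi = -φ qj := by
  refine ⟨?_, ?_, ?_, ?_, ?_, ?_, ?_, ?_, ?_⟩
  · rw [← h.map_mul, qii, map_neg, phi_one h]
  · rw [← h.map_mul, qjj, map_neg, phi_one h]
  · rw [← h.map_mul, qkk, map_neg, phi_one h]
  · rw [← h.map_mul, qij]
  · rw [← h.map_mul, qjk]
  · rw [← h.map_mul, qki]
  · rw [← h.map_mul, qji, map_neg]
  · rw [← h.map_mul, qkj, map_neg]
  · rw [← h.map_mul, qik, map_neg]

lemma T_i (h : IsNonstandardInvolution φ) (x : H) : qi * T φ x = -(T φ x * φ qi) := by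
  obtain ⟨h1, h2, h3, h4, h5, h6, h7, h8, h9⟩ := rel h
  unfold T
  simp only [mul_add, add_mul]
  have e1 : qi * (qi * x * φ qi) = -(x * φ qi) := by
    rw [← mul_assoc, ← mul_assoc, qii]; simp
  have e2 : qi * (qj * x * φ qj) = qk * x * φ qj := by
    rw [← mul_assoc, ← mul_assoc, qij]
  have e3 : qi * (qk * x * φ qk) = -(qj * x * φ qk) := by
    rw [← mul_assoc, ← mul_assoc, qik]; simp
  have f1 : qi * x * φ qi * φ qi = -(qi * x) := by rw [mul_assoc (qi * x), h1]; simp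
  have f2 : qj * x * φ qj * φ qi = qj * x * φ qk := by rw [mul_assoc (qj * x), h4]
  have f3 : qk * x * φ qk * φ qi = -(qk * x * φ qj) := by rw [mul_assoc (qk * x), h9]; simp
  rw [e1, e2, e3, f1, f2, f3]
  abel

lemma T_j (h : IsNonstandardInvolution φ) (x : H) : qj * T φ x = -(T φ x * φ qj) := by
  obtain ⟨h1, h2, h3, h4, h5, h6, h7, h8, h9⟩ := rel h
  unfold T
  simp only [mul_add, add_mul]
  have e1 : qj * (qi * x * φ qi) = -(qk * x * φ qi) := by
    rw [← mul_assoc, ← mul_assoc, qji]; simp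
  have e2 : qj * (qj * x * φ qj) = -(x * φ qj) := by
    rw [← mul_assoc, ← mul_assoc, qjj]; simp
  have e3 : qj * (qk * x * φ qk) = qi * x * φ qk := by
    rw [← mul_assoc, ← mul_assoc, qjk]
  have f1 : qi * x * φ qi * φ qj = -(qi * x * φ qk) := by rw [mul_assoc (qi * x), h7]; simp
  have f2 : qj * x * φ qj * φ qj = -(qj * x) := by rw [mul_assoc (qj * x), h2]; simp
  have f3 : qk * x * φ qk * φ qj = qk * x * φ qi := by rw [mul_assoc (qk * x), h5]
  rw [e1, e2, e3, f1, f2, f3]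
  abel

lemma T_k (h : IsNonstandardInvolution φ) (x : H) : qk * T φ x = -(T φ x * φ qk) := by
  obtain ⟨h1, h2, h3, h4, h5, h6, h7, h8, h9⟩ := rel h
  unfold T
  simp only [mul_add, add_mul]
  have e1 : qk * (qi * x * φ qi) = qj * x * φ qi := by
    rw [← mul_assoc, ← mul_assoc, qki]
  have e2 : qk * (qj * x * φ qj) = -(qi * x * φ qj) := by
    rw [← mul_assoc, ← mul_assoc, qkj]; simp
  have e3 : qk * (qk * x * φ qk) = -(x * φ qk) := by
    rw [← mul_assoc, ← mul_assoc, qkk]; simp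
  have f1 : qi * x * φ qi * φ qk = qi * x * φ qj := by rw [mul_assoc (qi * x), h6]
  have f2 : qj * x * φ qj * φ qk = -(qj * x * φ qi) := by rw [mul_assoc (qj * x), h8]; simp
  have f3 : qk * x * φ qk * φ qk = -(qk * x) := by rw [mul_assoc (qk * x), h3]; simp
  rw [e1, e2, e3, f1, f2, f3]
  abel

lemma T_comm (h : IsNonstandardInvolution φ) (x y : H) : star y * T φ x = T φ x * φ y := by
  have hy : φ y = y.re • (1 : H) + y.imI • φ qi + y.imJ • φ qj + y.imK • φ qk := by
    conv_lhs => rw [decomp y]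
    rw [map_add, map_add, map_add, map_smul, map_smul, map_smul, map_smul, phi_one h]
  rw [star_decomp y, hy]
  simp only [sub_mul, mul_add, smul_mul_assoc, mul_smul_comm, one_mul, mul_one, T_i h, T_j h, T_k h,
    smul_neg]
  abel

lemma exists_q (h : IsNonstandardInvolution φ) : ∃ q : H, q ≠ 0 ∧ ∀ y, star y * q = q * φ y := by
  have key : T φ 1 ≠ 0 ∨ T φ qi ≠ 0 ∨ T φ qj ≠ 0 ∨ T φ qk ≠ 0 := by
    by_contra hcon
    push Not at hcon
    obtain ⟨h1, h2, h3, h4⟩ := hcon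
    have := T_trace φ
    rw [h1, h2, h3, h4] at this
    have h0 : (0 : H).re + (0 : H).imI + (0 : H).imJ + (0 : H).imK = 0 := by
      rw [zero_re, zero_i, zero_j, zero_k]; ring
    rw [h0] at this
    norm_num at this
  rcases key with h1 | h1 | h1 | h1
  · exact ⟨_, h1, fun y => T_comm h _ y⟩
  · exact ⟨_, h1, fun y => T_comm h _ y⟩
  · exact ⟨_, h1, fun y => T_comm h _ y⟩
  · exact ⟨_, h1, fun y => T_comm h _ y⟩

lemma exists_beta (h : IsNonstandardInvolution φ) :
    ∃ β : H, star β = -β ∧ β * β = -1 ∧ ‖β‖ = 1 ∧ ∀ x, β * φ x = star x * β := by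
  obtain ⟨q, hq0, hq⟩ := exists_q h
  -- q y q* = q* y q
  have hqy : ∀ y, q * y * star q = star q * y * q := by
    intro y
    have h3 : star (φ y) * q = q * y := by rw [hq (φ y), h.map_map]
    have h2 : star q * y = star (φ y) * star q := by
      have := congrArg star (hq y)
      rwa [star_mul, star_mul, star_star] at this
    rw [← h3, h2, mul_assoc, mul_assoc, Quaternion.self_mul_star, Quaternion.star_mul_self]
  have hqi := hqy qi
  have hqj := hqy qj
  have e1 := congrArg QuaternionAlgebra.imJ hqi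
  have e2 := congrArg QuaternionAlgebra.imK hqi
  have e3 := congrArg QuaternionAlgebra.imK hqj
  simp [one_re, one_i, one_j, one_k, qi_re, qi_i, qi_j, qi_k, qj_re, qj_i, qj_j, qj_k] at e1 e2 e3
  have f1 : q.re * q.imK = 0 := by linarith
  have f2 : q.re * q.imJ = 0 := by linarith
  have f3 : q.re * q.imI = 0 := by linarith
  by_cases ha : q.re = 0
  · have hqs : star q = -q := Quaternion.star_eq_neg.2 ha
    have hn : 0 < ‖q‖ := norm_pos_iff.2 hq0
    refine ⟨‖q‖⁻¹ • q, ?_, ?_, ?_, ?_⟩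
    · rw [Quaternion.star_smul, hqs, smul_neg]
    · have h1 : q * q = -((‖q‖ ^ 2 : ℝ) : H) := by
        have h2 : q * star q = ((‖q‖ ^ 2 : ℝ) : H) := by
          rw [Quaternion.self_mul_star, Quaternion.normSq_eq_norm_mul_self, sq]
        rw [hqs, mul_neg] at h2
        rw [← h2, neg_neg]
      rw [smul_mul_assoc, mul_smul_comm, h1, smul_smul, smul_neg, ← Quaternion.coe_smul, smul_eq_mul]
      congr 1
      have : ‖q‖⁻¹ * ‖q‖⁻¹ * ‖q‖ ^ 2 = 1 := by field_simp
      rw [this, Quaternion.coe_one]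
    · rw [norm_smul, norm_inv, norm_norm, inv_mul_cancel₀ hn.ne']
    · intro x
      rw [smul_mul_assoc, ← hq x, mul_smul_comm]
  · exfalso
    have hb : q.imI = 0 := by rcases mul_eq_zero.1 f3 with h | h; exact absurd h ha; exact h
    have hc : q.imJ = 0 := by rcases mul_eq_zero.1 f2 with h | h; exact absurd h ha; exact h
    have hd : q.imK = 0 := by rcases mul_eq_zero.1 f1 with h | h; exact absurd h ha; exact h
    obtain ⟨x, hx⟩ := h.not_conj
    apply hx
    have h1 := hq x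
    have h2 : q = ((q.re : ℝ) : H) := hext rfl hb hc hd
    have h3 : q * star x = q * φ x := by
      rw [← h1]
      conv_lhs => rw [h2]
      conv_rhs => rw [h2]
      exact Quaternion.coe_commutes _ _
    exact (mul_left_cancel₀ hq0 h3).symm

/-! ### The transfer -/

/-- `X_φ`: the transpose of `X` with `φ` applied to each entry. -/
noncomputable def phiTranspose {ι κ : Type} (φ : H →ₗ[ℝ] H) (X : Matrix ι κ H) : Matrix κ ι H :=
  fun a b => φ (X b a)

/-- `A k` is `φ`-hermitian for even `k` and `φ`-skewhermitian for odd `k`. -/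
def SymCoeffPhi {n : ℕ} (φ : H →ₗ[ℝ] H) (ℓ : ℕ) (A : ℕ → Matrix (Fin n) (Fin n) H) : Prop :=
  ∀ k, k ≤ ℓ → (Even k → phiTranspose φ (A k) = A k) ∧ (Odd k → phiTranspose φ (A k) = -A k)

/-- The system is stably bounded: for some `ε > 0`, every system satisfying (B) (same symmetries and
invertible leading coefficient) whose coefficients differ entrywise by less than `ε` is bounded. -/
def IsStablyBoundedPhi {n : ℕ} (φ : H →ₗ[ℝ] H) (ℓ : ℕ) (A : ℕ → Matrix (Fin n) (Fin n) H) : Prop :=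
  ∃ ε : ℝ, 0 < ε ∧ ∀ A' : ℕ → Matrix (Fin n) (Fin n) H, SymCoeffPhi φ ℓ A' → IsUnit (A' ℓ) →
    (∀ k, k ≤ ℓ → ∀ a b, ‖A' k a b - A k a b‖ < ε) → IsBoundedSystem ℓ A'

/-- `x_φ K x` for a column vector `x`. -/
noncomputable def phiForm {ι : Type} [Fintype ι] (φ : H →ₗ[ℝ] H) (K : Matrix ι ι H) (x : ι → H) :
    H :=
  (fun i => φ (x i)) ⬝ᵥ (K *ᵥ x)

/-- The set `S` is `(K, φ)`-definite: `x_φ K x` vanishes for no nonzero `x` in `S`. -/
def IsPhiDefinite {ι : Type} [Fintype ι] (φ : H →ₗ[ℝ] H) (K : Matrix ι ι H) (S : Set (ι → H)) :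
    Prop :=
  ∀ x ∈ S, x ≠ 0 → phiForm φ K x ≠ 0

/-- multiplication of all coefficients by `β` on the left -/
noncomputable def lm {n : ℕ} (β : H) (A : ℕ → Matrix (Fin n) (Fin n) H) : ℕ → Matrix (Fin n) (Fin n) H :=
  fun k => β • A k

lemma lm_apply {n : ℕ} (β : H) (A : ℕ → Matrix (Fin n) (Fin n) H) (k : ℕ) (a b : Fin n) :
    lm β A k a b = β * A k a b := rfl

section transfer

variable {n : ℕ} {β : H}

lemma lm_lm (hbb : β * β = -1) (A : ℕ → Matrix (Fin n) (Fin n) H) : lm (-β) (lm β A) = A := by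
  funext k
  ext1 a b
  rw [lm_apply, lm_apply, ← mul_assoc, neg_mul, hbb, neg_neg, one_mul]

lemma lm_lm' (hbb : β * β = -1) (A : ℕ → Matrix (Fin n) (Fin n) H) : lm β (lm (-β) A) = A := by
  funext k
  ext1 a b
  rw [lm_apply, lm_apply, ← mul_assoc, mul_neg, hbb, neg_neg, one_mul]

lemma isUnit_smul (hbb : β * β = -1) {M : Matrix (Fin n) (Fin n) H} (hM : IsUnit M) :
    IsUnit (β • M) := by
  obtain ⟨U, rfl⟩ := hM
  refine ⟨⟨β • (U : Matrix (Fin n) (Fin n) H), ((U⁻¹ : (Matrix (Fin n) (Fin n) H)ˣ) : Matrix (Fin n) (Fin n) H) * ((-β) • (1 : Matrix (Fin n) (Fin n) H)), ?_, ?_⟩, rfl⟩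
  · rw [Matrix.smul_mul, ← mul_assoc, Units.mul_inv, one_mul, smul_smul, mul_neg, hbb, neg_neg,
      one_smul]
  · rw [mul_assoc, Matrix.smul_mul, one_mul, smul_smul, neg_mul, hbb, neg_neg, one_smul,
      Units.inv_mul]

lemma inverse_smul (hbb : β * β = -1) {M N : Matrix (Fin n) (Fin n) H} (hM : IsUnit M) :
    Ring.inverse (β • M) * (β • N) = Ring.inverse M * N := by
  have h1 := isUnit_smul hbb hM
  have h2 : (β • M) * (Ring.inverse M * N) = β • N := by
    rw [Matrix.smul_mul, ← mul_assoc, Ring.mul_inverse_cancel _ hM, one_mul]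
  rw [← h2, ← mul_assoc, Ring.inverse_mul_cancel _ h1, one_mul]

lemma companion_lm (hbb : β * β = -1) {ℓ : ℕ} {A : ℕ → Matrix (Fin n) (Fin n) H}
    (hinv : IsUnit (A ℓ)) : companion ℓ (lm β A) = companion ℓ A := by
  funext p q
  unfold companion
  have h1 : Ring.inverse (lm β A ℓ) * lm β A q.1 = Ring.inverse (A ℓ) * A q.1 :=
    inverse_smul hbb hinv
  rw [h1]

lemma gmat_lm (ℓ : ℕ) (A : ℕ → Matrix (Fin n) (Fin n) H) (p q : Fin ℓ × Fin n) :
    gmat ℓ (lm β A) p q = β * gmat ℓ A p q := by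
  unfold gmat
  split_ifs with h
  · rw [Matrix.smul_apply, Matrix.smul_apply, lm_apply, mul_smul_comm]
  · rw [mul_zero]

lemma isSolution_lm {ℓ : ℕ} {A : ℕ → Matrix (Fin n) (Fin n) H}
    {x : ℝ → Fin n → H} (h : IsSolution ℓ A x) : IsSolution ℓ (lm β A) x := by
  refine ⟨h.1, fun t => ?_⟩
  have h1 : ∀ k, lm β A k *ᵥ iteratedDeriv k x t = β • (A k *ᵥ iteratedDeriv k x t) := by
    intro k
    unfold lm
    rw [Matrix.smul_mulVec]
  rw [Finset.sum_congr rfl (fun k _ => h1 k), ← Finset.smul_sum, h.2 t, smul_zero]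

lemma bounded_of_lm {ℓ : ℕ} {A : ℕ → Matrix (Fin n) (Fin n) H}
    (h : IsBoundedSystem ℓ (lm β A)) : IsBoundedSystem ℓ A :=
  fun x hx => h x (isSolution_lm hx)

lemma neg_beta (hbb : β * β = -1) : (-β) * (-β) = -1 := by rw [neg_mul_neg, hbb]

lemma symG_of_phi (hbs : star β = -β) (hb : ∀ x, β * φ x = star x * β) {ℓ : ℕ}
    {A : ℕ → Matrix (Fin n) (Fin n) H} (hA : SymCoeffPhi φ ℓ A) : SymCoeffG ℓ (lm β A) := by
  intro k hk
  constructor
  · intro hodd
    have h1 := (hA k hk).2 hodd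
    ext1 a b
    have h2 := congrFun (congrFun h1 a) b
    rw [Matrix.conjTranspose_apply, lm_apply, lm_apply, star_mul, hbs, mul_neg, ← hb]
    have h3 : φ (A k b a) = -(A k a b) := h2
    rw [h3, mul_neg, neg_neg]
  · intro heven
    have h1 := (hA k hk).1 heven
    ext1 a b
    have h2 := congrFun (congrFun h1 a) b
    rw [Matrix.conjTranspose_apply, Matrix.neg_apply, lm_apply, lm_apply, star_mul, hbs, mul_neg,
      ← hb]
    have h3 : φ (A k b a) = A k a b := h2
    rw [h3]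

lemma phi_of_symG (hbs : star β = -β) (hbb : β * β = -1) (hb : ∀ x, β * φ x = star x * β) {ℓ : ℕ}
    {A : ℕ → Matrix (Fin n) (Fin n) H} (hA : SymCoeffG ℓ A) : SymCoeffPhi φ ℓ (lm (-β) A) := by
  have hβ0 : β ≠ 0 := by
    rintro rfl
    rw [mul_zero] at hbb
    have := congrArg QuaternionAlgebra.re hbb
    rw [zero_re] at this
    have h1 : (-1 : H).re = -1 := rfl
    rw [h1] at this
    norm_num at this
  -- the value of `φ` on `-β x`
  have hval : ∀ x : H, φ (-β * x) = β * (star x) := by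
    intro x
    apply mul_left_cancel₀ hβ0
    rw [hb, star_mul, star_neg, hbs, neg_neg, mul_assoc, hbb, ← mul_assoc, hbb, mul_neg, mul_one,
      neg_mul, one_mul]
  intro k hk
  constructor
  · intro heven
    have h1 := (hA k hk).2 heven
    ext1 a b
    have h2 := congrFun (congrFun h1 a) b
    rw [Matrix.conjTranspose_apply, Matrix.neg_apply] at h2
    unfold phiTranspose
    rw [lm_apply, lm_apply, hval, h2, mul_neg, neg_mul]
  · intro hodd
    have h1 := (hA k hk).1 hodd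
    ext1 a b
    have h2 := congrFun (congrFun h1 a) b
    rw [Matrix.conjTranspose_apply] at h2
    unfold phiTranspose
    rw [Matrix.neg_apply, lm_apply, lm_apply, hval, h2, neg_mul, neg_neg]

lemma stable_lm (hbs : star β = -β) (hbb : β * β = -1) (hnorm : ‖β‖ = 1)
    (hb : ∀ x, β * φ x = star x * β) {ℓ : ℕ}
    {A : ℕ → Matrix (Fin n) (Fin n) H} (hst : IsStablyBoundedPhi φ ℓ A) :
    IsStablyBoundedI ℓ (lm β A) := by
  obtain ⟨ε, hε, h⟩ := hst
  refine ⟨ε, hε, fun A' hA' hu hcl => ?_⟩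
  have h1 := h (lm (-β) A') (phi_of_symG hbs hbb hb hA') (isUnit_smul (neg_beta hbb) hu) (by
    intro k hk a b
    have h2 : lm (-β) A' k a b - A k a b = -β * (A' k a b - lm β A k a b) := by
      rw [lm_apply, lm_apply, mul_sub, ← mul_assoc (-β) β, neg_mul β β, hbb, neg_neg, one_mul]
    rw [h2, norm_mul, norm_neg, hnorm, one_mul]
    exact hcl k hk a b)
  exact bounded_of_lm h1

end transfer

/-- **All root subspaces of a stably bounded system are `(G, φ)`-definite.** -/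
theorem phi_definite (φ : H →ₗ[ℝ] H) (hφ : IsNonstandardInvolution φ) (n ℓ : ℕ) (hn : 1 ≤ n)
    (hℓ : 1 ≤ ℓ) (A : ℕ → Matrix (Fin n) (Fin n) H) (hA : SymCoeffPhi φ ℓ A) (hinv : IsUnit (A ℓ))
    (hst : IsStablyBoundedPhi φ ℓ A) (l : H) (hl : IsEigenvalue (companion ℓ A) l) :
    IsPhiDefinite φ (gmat ℓ A) (rootSubspace (companion ℓ A) l) := by
  obtain ⟨β, hbs, hbb, hnorm, hb⟩ := exists_beta hφ
  have hu : IsUnit (lm β A ℓ) := isUnit_smul hbb hinv
  have h1 := stable_lm hbs hbb hnorm hb hst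
  have h2 := stablyBounded_of_I hu h1
  have hcomp := companion_lm hbb hinv
  have h3 := definite n ℓ hn hℓ (lm β A) (symG_of_phi hbs hb hA) hu h2 l (by rwa [hcomp])
  rw [hcomp] at h3
  -- the two forms
  have hform : ∀ x : Fin ℓ × Fin n → H,
      star x ⬝ᵥ (gmat ℓ (lm β A) *ᵥ x) = β * phiForm φ (gmat ℓ A) x := by
    intro x
    unfold phiForm
    simp only [dotProduct, Matrix.mulVec, Finset.mul_sum, Pi.star_apply]
    refine Finset.sum_congr rfl (fun p _ => Finset.sum_congr rfl (fun q _ => ?_))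
    rw [gmat_lm, ← mul_assoc β, hb, mul_assoc, mul_assoc]
  intro x hx hx0 hcon
  have h4 := hform x
  rw [hcon, mul_zero] at h4
  rcases h3 with h3 | h3
  · obtain ⟨r, hr, hr'⟩ := h3 x hx hx0
    rw [h4] at hr'
    exact hr.ne' (Quaternion.coe_injective (hr'.symm.trans Quaternion.coe_zero.symm))
  · obtain ⟨r, hr, hr'⟩ := h3 x hx hx0
    rw [h4] at hr'
    exact hr.ne (Quaternion.coe_injective (hr'.symm.trans Quaternion.coe_zero.symm))

end Pool.Agent.X98.QG.Phi
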